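import Pool.Agent.Q35.GM.Stm

/-!
# Project GM (helper35), jobs PLB and CPG
-/

set_option autoImplicit false

namespace Pool.Agent.Q137.GM

open Pool.Agent.Q35.GM Filter Topology Metric Set

section

variable {F : Type} [CommRing F] {m : ℕ}

theorem plu_comb (x y : Fin m → F) (p q r s : F) :
    plu (p • x + q • y) (r • x + s • y) = (p * s - q * r) • plu x y := by
  funext c
  simp only [plu, Pi.add_apply, Pi.smul_apply, smul_eq_mul]
  ring

theorem plu_smul (x y : Fin m → F) (p q : F) : plu (p • x) (q • y) = (p * q) • plu x y := by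
  funext c
  simp only [plu, Pi.smul_apply, smul_eq_mul]
  ring

theorem plu_col (x y : Fin m → F) (b : Fin m) :
    (fun a : Fin m => plu x y (a, b)) = y b • x + (-(x b)) • y := by
  funext a
  simp only [plu, Pi.add_apply, Pi.smul_apply, smul_eq_mul]
  ring

end

theorem plb : S_PLB := by
  intro K _ m x y
  have h1 : LinearIndependent K ![x, y] ↔ plu x y ≠ 0 := by
    rw [LinearIndependent.pair_iff]
    constructor
    · intro h h0
      have hx : x ≠ 0 := by
        intro hx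
        have := (h 1 0 (by rw [hx]; simp)).1
        exact one_ne_zero this
      obtain ⟨a, ha⟩ := Function.ne_iff.1 hx
      refine ha ?_
      have h2 : y a • x + (-(x a)) • y = 0 := by
        funext b
        have := congrFun h0 (b, a)
        simp only [plu, Pi.zero_apply] at this
        simp only [Pi.add_apply, Pi.smul_apply, smul_eq_mul, Pi.zero_apply]
        linear_combination this
      have := (h _ _ h2).2
      simpa using this
    · intro h s t hst
      obtain ⟨⟨a, b⟩, hab⟩ := Function.ne_iff.1 h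
      simp only [plu, Pi.zero_apply] at hab
      have ha := congrFun hst a
      have hb := congrFun hst b
      simp only [Pi.add_apply, Pi.smul_apply, smul_eq_mul, Pi.zero_apply] at ha hb
      constructor
      · have : s * (x a * y b - x b * y a) = 0 := by linear_combination y b * ha - y a * hb
        exact (mul_eq_zero.1 this).resolve_right hab
      · have : t * (x a * y b - x b * y a) = 0 := by linear_combination x a * hb - x b * ha
        exact (mul_eq_zero.1 this).resolve_right hab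
  refine ⟨h1, fun hli => ⟨?_, ?_⟩⟩
  · obtain ⟨⟨a, b⟩, hab⟩ := Function.ne_iff.1 (h1.1 hli)
    simp only [plu, Pi.zero_apply] at hab
    apply le_antisymm
    · rw [Submodule.span_le]
      rintro _ ⟨c, rfl⟩
      simp only [plu_col]
      exact Submodule.mem_span_pair.2 ⟨_, _, rfl⟩
    · rw [Submodule.span_le]
      have hcol : ∀ c, y c • x + (-(x c)) • y ∈
          Submodule.span K (Set.range fun (b : Fin m) (a : Fin m) => plu x y (a, b)) := by
        intro c
        rw [← plu_col]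
        exact Submodule.subset_span ⟨c, rfl⟩
      set δ := x a * y b - x b * y a with hδ
      rintro z (rfl | rfl)
      · have h2 : z = δ⁻¹ • (z a • (y b • z + (-(z b)) • y) + (-(z b)) • (y a • z + (-(z a)) • y)) := by
          funext c
          simp only [Pi.add_apply, Pi.smul_apply, smul_eq_mul]
          rw [eq_inv_mul_iff_mul_eq₀ hab, hδ]
          ring
        have h3 := Submodule.smul_mem _ δ⁻¹ (Submodule.add_mem _ (Submodule.smul_mem _ (z a) (hcol b))
          (Submodule.smul_mem _ (-(z b)) (hcol a)))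
        rw [← h2] at h3
        exact h3
      · have h2 : z = δ⁻¹ • (z a • (z b • x + (-(x b)) • z) + (-(z b)) • (z a • x + (-(x a)) • z)) := by
          funext c
          simp only [Pi.add_apply, Pi.smul_apply, smul_eq_mul]
          rw [eq_inv_mul_iff_mul_eq₀ hab, hδ]
          ring
        have h3 := Submodule.smul_mem _ δ⁻¹ (Submodule.add_mem _ (Submodule.smul_mem _ (z a) (hcol b))
          (Submodule.smul_mem _ (-(z b)) (hcol a)))
        rw [← h2] at h3
        exact h3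
  · intro x' y' hx' hy'
    obtain ⟨p, q, rfl⟩ := Submodule.mem_span_pair.1 hx'
    obtain ⟨r, s, rfl⟩ := Submodule.mem_span_pair.1 hy'
    exact ⟨_, plu_comb x y p q r s⟩

/-! ## CPG -/

section

variable {K : Type} [Field K] {m k : ℕ} {L : Type} [NormedField L] [Algebra K L]

theorem bil_comb {M : Matrix (Fin m) (Fin m) K} (hM : Alt M) (x y : Fin m → L) (p q r s : L) :
    bil L M (p • x + q • y) (r • x + s • y) = (p * s - q * r) * bil L M x y := by
  have hadd : ∀ u v w : Fin m → L, bil L M (u + v) w = bil L M u w + bil L M v w := by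
    intro u v w
    simp only [bil, Pi.add_apply, ← Finset.sum_add_distrib]
    exact Finset.sum_congr rfl fun i _ => Finset.sum_congr rfl fun j _ => by ring
  have hadd' : ∀ u v w : Fin m → L, bil L M u (v + w) = bil L M u v + bil L M u w := by
    intro u v w
    simp only [bil, Pi.add_apply, ← Finset.sum_add_distrib]
    exact Finset.sum_congr rfl fun i _ => Finset.sum_congr rfl fun j _ => by ring
  have hsm : ∀ (c : L) (u v : Fin m → L), bil L M (c • u) v = c * bil L M u v := by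
    intro c u v
    simp only [bil, Pi.smul_apply, smul_eq_mul, Finset.mul_sum]
    exact Finset.sum_congr rfl fun i _ => Finset.sum_congr rfl fun j _ => by ring
  have hsm' : ∀ (c : L) (u v : Fin m → L), bil L M u (c • v) = c * bil L M u v := by
    intro c u v
    simp only [bil, Pi.smul_apply, smul_eq_mul, Finset.mul_sum]
    exact Finset.sum_congr rfl fun i _ => Finset.sum_congr rfl fun j _ => by ring
  have hsw : ∀ u v : Fin m → L, bil L M v u = -bil L M u v := by
    intro u v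
    simp only [bil]
    rw [Finset.sum_comm, ← Finset.sum_neg_distrib]
    refine Finset.sum_congr rfl fun i _ => ?_
    rw [← Finset.sum_neg_distrib]
    refine Finset.sum_congr rfl fun j _ => ?_
    have : M j i = - M i j := by
      have := congrFun (congrFun hM.1 i) j
      simpa [Matrix.transpose_apply] using this
    rw [this, map_neg]; ring
  have hself : ∀ u : Fin m → L, bil L M u u = 0 := by
    intro u
    simp only [bil]
    rw [← Finset.sum_product']
    refine Finset.sum_involution (fun p _ => (p.2, p.1)) ?_ ?_ ?_ ?_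
    · rintro ⟨i, j⟩ _
      have : M j i = - M i j := by
        have := congrFun (congrFun hM.1 i) j
        simpa [Matrix.transpose_apply] using this
      simp only
      rw [this, map_neg]; ring
    · rintro ⟨i, j⟩ _ hne heq
      simp only [Prod.mk.injEq] at heq
      obtain ⟨h1, _⟩ := heq
      subst h1
      apply hne
      simp [hM.2]
    · rintro ⟨i, j⟩ _; simp
    · rintro ⟨i, j⟩ _; simp
  rw [hadd, hadd', hadd', hsm, hsm, hsm', hsm', hsm, hsm, hsm', hsm', hself, hself, hsw x y]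
  ring

theorem bil_smul (M : Matrix (Fin m) (Fin m) K) (x y : Fin m → L) (p q : L) :
    bil L M (p • x) (q • y) = (p * q) * bil L M x y := by
  simp only [bil, Pi.smul_apply, smul_eq_mul, Finset.mul_sum]
  exact Finset.sum_congr rfl fun i _ => Finset.sum_congr rfl fun j _ => by ring

theorem plu_continuous : Continuous fun p : (Fin m → L) × (Fin m → L) => plu p.1 p.2 := by
  refine continuous_pi fun c => ?_
  simp only [plu]
  fun_prop

theorem bil_continuous (M : Matrix (Fin m) (Fin m) K) :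
    Continuous fun p : (Fin m → L) × (Fin m → L) => bil L M p.1 p.2 := by
  simp only [bil]
  fun_prop

/-- the compact set of the bases -/
def KK (M : Fin k → Matrix (Fin m) (Fin m) K) (L : Type) [NormedField L] [Algebra K L] (c : ℝ) :
    Set ((Fin m → L) × (Fin m → L)) :=
  {p | ‖p‖ ≤ 2 ∧ c ≤ ‖plu p.1 p.2‖ ∧ ∀ t, bil L (M t) p.1 p.2 = 0}

theorem KK_compact [ProperSpace L] (M : Fin k → Matrix (Fin m) (Fin m) K) (c : ℝ) :
    IsCompact (KK M L c) := by
  have h1 : KK M L c = closedBall 0 2 ∩ ({p | c ≤ ‖plu p.1 p.2‖} ∩ {p | ∀ t, bil L (M t) p.1 p.2 = 0}) := by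
    ext p
    simp only [KK, Set.mem_ofPred_eq, mem_inter_iff, mem_closedBall_zero_iff]
  rw [h1]
  refine (isCompact_closedBall (0 : (Fin m → L) × (Fin m → L)) 2).inter_right ?_
  refine (isClosed_le continuous_const plu_continuous.norm).inter ?_
  have : {p : (Fin m → L) × (Fin m → L) | ∀ t, bil L (M t) p.1 p.2 = 0} =
      ⋂ t, {p | bil L (M t) p.1 p.2 = 0} := by
    ext p; simp
  rw [this]
  exact isClosed_iInter fun t => isClosed_eq (bil_continuous (M t)) continuous_const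

theorem KK_cone (M : Fin k → Matrix (Fin m) (Fin m) K) {c : ℝ} (hc : 0 < c)
    {p : (Fin m → L) × (Fin m → L)} (hp : p ∈ KK M L c) : ConeG M L (plu p.1 p.2) := by
  refine ⟨?_, p.1, p.2, rfl, hp.2.2⟩
  intro h0
  have := hp.2.1
  rw [h0, norm_zero] at this
  linarith

theorem KK_cont (M : Fin k → Matrix (Fin m) (Fin m) K) {ψ : (Fin m × Fin m → L) → ℝ} (hψ : ContG M L ψ)
    {c : ℝ} (hc : 0 < c) : ContinuousOn (fun p : (Fin m → L) × (Fin m → L) => ψ (plu p.1 p.2)) (KK M L c) :=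
  hψ.cont.comp plu_continuous.continuousOn fun _ hp => KK_cone M hc hp

/-- a coordinate of maximal norm -/
theorem exists_max {ι : Type} [Fintype ι] (q : ι → L) (hq : q ≠ 0) : ∃ i, q i ≠ 0 ∧ ‖q i‖ = ‖q‖ := by
  obtain ⟨j, hj⟩ := Function.ne_iff.1 hq
  have : Nonempty ι := ⟨j⟩
  obtain ⟨i, hi⟩ := Finite.exists_max fun i => ‖q i‖
  have h1 : ‖q‖ = ‖q i‖ := le_antisymm ((pi_norm_le_iff_of_nonneg (norm_nonneg _)).2 hi) (norm_le_pi_norm q i)
  refine ⟨i, ?_, h1.symm⟩
  intro h0
  have := hi j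
  rw [h0, norm_zero] at this
  exact hj (norm_le_zero_iff.1 this)

theorem cpg_bounds [ProperSpace L] (M : Fin k → Matrix (Fin m) (Fin m) K) (hM : ∀ t, Alt (M t))
    {ψ : (Fin m × Fin m → L) → ℝ} (hψ : ContG M L ψ) :
    ∃ A B : ℝ, 0 < A ∧ ∀ q, ConeG M L q → A ≤ ψ q ∧ ψ q ≤ B := by
  have hrep : ∀ q, ConeG M L q → ∃ p ∈ KK M L 1, ψ q = ψ (plu p.1 p.2) := by
    rintro q ⟨hq0, x0, y0, hq, hb⟩
    obtain ⟨⟨a, b⟩, hab, hmax⟩ := exists_max q hq0
    have hinv : (q (a, b))⁻¹ ≠ 0 := inv_ne_zero hab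
    set d := q (a, b) with hd
    have hdval : d = x0 a * y0 b - x0 b * y0 a := by rw [hd, hq]; rfl
    set X : Fin m → L := (d⁻¹ * y0 b) • x0 + (-(d⁻¹ * x0 b)) • y0 with hX
    set Y : Fin m → L := (-(d⁻¹ * y0 a)) • x0 + (d⁻¹ * x0 a) • y0 with hY
    have hdet : (d⁻¹ * y0 b) * (d⁻¹ * x0 a) - (-(d⁻¹ * x0 b)) * (-(d⁻¹ * y0 a)) = d⁻¹ := by
      have : (d⁻¹ * y0 b) * (d⁻¹ * x0 a) - (-(d⁻¹ * x0 b)) * (-(d⁻¹ * y0 a)) = d⁻¹ * (d⁻¹ * (x0 a * y0 b - x0 b * y0 a)) := by
        ring
      rw [this, ← hdval, inv_mul_cancel₀ hab, mul_one]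
    have hplu : plu X Y = d⁻¹ • q := by
      rw [hX, hY, plu_comb, hdet, hq]
    have hXc : ∀ c, X c = d⁻¹ * q (c, b) := by
      intro c
      rw [hX, hq]
      simp only [plu, Pi.add_apply, Pi.smul_apply, smul_eq_mul]
      ring
    have hYc : ∀ c, Y c = d⁻¹ * q (a, c) := by
      intro c
      rw [hY, hq]
      simp only [plu, Pi.add_apply, Pi.smul_apply, smul_eq_mul]
      ring
    have hdn : 0 < ‖d‖ := norm_pos_iff.2 hab
    have hle : ∀ e, ‖d⁻¹ * q e‖ ≤ 1 := by
      intro e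
      rw [norm_mul, norm_inv, inv_mul_le_iff₀ hdn, mul_one, hmax]
      exact norm_le_pi_norm q e
    refine ⟨(X, Y), ⟨?_, ?_, ?_⟩, ?_⟩
    · rw [Prod.norm_def]
      refine max_le ?_ ?_
      · refine (pi_norm_le_iff_of_nonneg (by norm_num)).2 fun c => ?_
        simp only
        rw [hXc]; exact (hle _).trans (by norm_num)
      · refine (pi_norm_le_iff_of_nonneg (by norm_num)).2 fun c => ?_
        simp only
        rw [hYc]; exact (hle _).trans (by norm_num)
    · simp only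
      rw [hplu, norm_smul, norm_inv, ← hmax, inv_mul_cancel₀ hdn.ne']
    · intro t
      simp only
      rw [hX, hY, bil_comb (hM t), hb t, mul_zero]
    · simp only
      rw [hplu, hψ.smul _ hinv q ⟨hq0, x0, y0, hq, hb⟩]
  rcases (KK M L 1).eq_empty_or_nonempty with he | hne
  · refine ⟨1, 1, one_pos, fun q hq => ?_⟩
    obtain ⟨p, hp, _⟩ := hrep q hq
    rw [he] at hp
    exact absurd hp (Set.notMem_empty p)
  · obtain ⟨p1, hp1, hmin⟩ := (KK_compact (L := L) M 1).exists_isMinOn hne (KK_cont M hψ one_pos)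
    obtain ⟨p2, hp2, hmax⟩ := (KK_compact (L := L) M 1).exists_isMaxOn hne (KK_cont M hψ one_pos)
    refine ⟨ψ (plu p1.1 p1.2), ψ (plu p2.1 p2.2), hψ.pos _ (KK_cone M one_pos hp1), fun q hq => ?_⟩
    obtain ⟨p, hp, hpq⟩ := hrep q hq
    rw [hpq]
    exact ⟨hmin hp, hmax hp⟩

theorem plu_norm_sub (u v u' v' : Fin m → L) (hu : ‖u‖ ≤ 1) (hv' : ‖v'‖ ≤ 2) :
    ‖plu u v - plu u' v'‖ ≤ 2 * ‖v - v'‖ + 4 * ‖u - u'‖ := by
  refine (pi_norm_le_iff_of_nonneg (by positivity)).2 fun c => ?_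
  have h1 : (plu u v - plu u' v') c = (u c.1 * (v c.2 - v' c.2) + (u c.1 - u' c.1) * v' c.2) -
      (u c.2 * (v c.1 - v' c.1) + (u c.2 - u' c.2) * v' c.1) := by
    simp only [plu, Pi.sub_apply]; ring
  rw [h1]
  have hU : ∀ i, ‖u i‖ ≤ 1 := fun i => (norm_le_pi_norm u i).trans hu
  have hV : ∀ i, ‖v' i‖ ≤ 2 := fun i => (norm_le_pi_norm v' i).trans hv'
  have hdv : ∀ i, ‖v i - v' i‖ ≤ ‖v - v'‖ := fun i => norm_le_pi_norm (v - v') i
  have hdu : ∀ i, ‖u i - u' i‖ ≤ ‖u - u'‖ := fun i => norm_le_pi_norm (u - u') i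
  have key : ∀ i j, ‖u i * (v j - v' j) + (u i - u' i) * v' j‖ ≤ ‖v - v'‖ + 2 * ‖u - u'‖ := by
    intro i j
    refine (norm_add_le _ _).trans ?_
    rw [norm_mul, norm_mul]
    have h2 : ‖u i‖ * ‖v j - v' j‖ ≤ 1 * ‖v - v'‖ :=
      mul_le_mul (hU i) (hdv j) (norm_nonneg _) (by norm_num)
    have h3 : ‖u i - u' i‖ * ‖v' j‖ ≤ ‖u - u'‖ * 2 :=
      mul_le_mul (hdu i) (hV j) (norm_nonneg _) (norm_nonneg _)
    linarith
  refine (norm_sub_le _ _).trans ?_
  have h2 := key c.1 c.2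
  have h3 := key c.2 c.1
  linarith

theorem cpg_uc [ProperSpace L] (M : Fin k → Matrix (Fin m) (Fin m) K)
    {ψ : (Fin m × Fin m → L) → ℝ} (hψ : ContG M L ψ) (c ε : ℝ) (hc : 0 < c) (hε : 0 < ε) :
    ∃ δ : ℝ, 0 < δ ∧ ∀ x y x' y' : Fin m → L, plu x y ≠ 0 →
      plu x' y' ≠ 0 → (∀ t, bil L (M t) x y = 0) → (∀ t, bil L (M t) x' y' = 0) →
      c * (‖x‖ * ‖y‖) ≤ ‖plu x y‖ → ‖x - x'‖ ≤ δ * ‖x‖ → ‖y - y'‖ ≤ δ * ‖y‖ →
      |ψ (plu x y) - ψ (plu x' y')| ≤ ε := by
  have hc2 : 0 < c / 2 := by linarith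
  have huc := (KK_compact (L := L) M (c / 2)).uniformContinuousOn_of_continuous (KK_cont M hψ hc2)
  obtain ⟨δ0, hδ0, h⟩ := Metric.uniformContinuousOn_iff.1 huc ε hε
  refine ⟨min (min (δ0 / 2) 1) (c / 12), by positivity, ?_⟩
  intro x y x' y' hxy hxy' hb hb' hsk hdx hdy
  set δ := min (min (δ0 / 2) 1) (c / 12) with hδ
  have hδ1 : δ ≤ δ0 / 2 := (min_le_left _ _).trans (min_le_left _ _)
  have hδ2 : δ ≤ 1 := (min_le_left _ _).trans (min_le_right _ _)
  have hδ3 : δ ≤ c / 12 := min_le_right _ _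
  have hx0 : x ≠ 0 := by
    rintro rfl; apply hxy; funext c; simp [plu]
  have hy0 : y ≠ 0 := by
    rintro rfl; apply hxy; funext c; simp [plu]
  obtain ⟨a, ha0, ha⟩ := exists_max x hx0
  obtain ⟨b, hb0, hbn⟩ := exists_max y hy0
  have hxn : 0 < ‖x‖ := norm_pos_iff.2 hx0
  have hyn : 0 < ‖y‖ := norm_pos_iff.2 hy0
  have hs : (x a)⁻¹ * (y b)⁻¹ ≠ 0 := mul_ne_zero (inv_ne_zero ha0) (inv_ne_zero hb0)
  set u := (x a)⁻¹ • x with hu
  set u' := (x a)⁻¹ • x' with hu'
  set v := (y b)⁻¹ • y with hv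
  set v' := (y b)⁻¹ • y' with hv'
  have hun : ‖u‖ = 1 := by rw [hu, norm_smul, norm_inv, ha, inv_mul_cancel₀ hxn.ne']
  have hvn : ‖v‖ = 1 := by rw [hv, norm_smul, norm_inv, hbn, inv_mul_cancel₀ hyn.ne']
  have hdu : ‖u - u'‖ ≤ δ := by
    rw [hu, hu', ← smul_sub, norm_smul, norm_inv, ha, inv_mul_le_iff₀ hxn, mul_comm]; exact hdx
  have hdv : ‖v - v'‖ ≤ δ := by
    rw [hv, hv', ← smul_sub, norm_smul, norm_inv, hbn, inv_mul_le_iff₀ hyn, mul_comm]; exact hdy
  have hun' : ‖u'‖ ≤ 2 := by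
    have : ‖u'‖ ≤ ‖u‖ + ‖u - u'‖ := by
      have := norm_sub_le u (u - u')
      rwa [sub_sub_cancel] at this
    linarith
  have hvn' : ‖v'‖ ≤ 2 := by
    have : ‖v'‖ ≤ ‖v‖ + ‖v - v'‖ := by
      have := norm_sub_le v (v - v')
      rwa [sub_sub_cancel] at this
    linarith
  have hpu : plu u v = ((x a)⁻¹ * (y b)⁻¹) • plu x y := plu_smul x y _ _
  have hpu' : plu u' v' = ((x a)⁻¹ * (y b)⁻¹) • plu x' y' := plu_smul x' y' _ _
  have hpn : c ≤ ‖plu u v‖ := by
    rw [hpu, norm_smul, norm_mul, norm_inv, norm_inv, ha, hbn, ← mul_inv, ← div_eq_inv_mul,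
      le_div_iff₀ (by positivity)]
    exact hsk
  have hpn' : c / 2 ≤ ‖plu u' v'‖ := by
    have h1 := plu_norm_sub u v u' v' hun.le hvn'
    have h2 : ‖plu u v‖ ≤ ‖plu u v - plu u' v'‖ + ‖plu u' v'‖ := by
      have := norm_add_le (plu u v - plu u' v') (plu u' v')
      rwa [sub_add_cancel] at this
    linarith
  have hbu : ∀ t, bil L (M t) u v = 0 := fun t => by rw [hu, hv, bil_smul, hb t, mul_zero]
  have hbu' : ∀ t, bil L (M t) u' v' = 0 := fun t => by rw [hu', hv', bil_smul, hb' t, mul_zero]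
  have hm1 : (u, v) ∈ KK M L (c / 2) := by
    refine ⟨?_, by linarith, hbu⟩
    rw [Prod.norm_def]
    exact max_le (by rw [hun]; norm_num) (by rw [hvn]; norm_num)
  have hm2 : (u', v') ∈ KK M L (c / 2) := by
    refine ⟨?_, hpn', hbu'⟩
    rw [Prod.norm_def]
    exact max_le hun' hvn'
  have hdist : dist (u, v) (u', v') < δ0 := by
    rw [Prod.dist_eq]
    refine max_lt ?_ ?_
    · rw [dist_eq_norm]; simp only; linarith
    · rw [dist_eq_norm]; simp only; linarith
  have h1 := h (u, v) hm1 (u', v') hm2 hdist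
  rw [Real.dist_eq] at h1
  simp only at h1
  rw [hpu, hpu', hψ.smul _ hs _ ⟨hxy, x, y, rfl, hb⟩, hψ.smul _ hs _ ⟨hxy', x', y', rfl, hb'⟩] at h1
  exact h1.le

end

theorem cpg : S_CPG := by
  intro K _ m k M L _ _ _ ψ hM hψ
  exact ⟨cpg_bounds M hM hψ, fun c ε hc hε => cpg_uc M hψ c ε hc hε⟩

end Pool.Agent.Q137.GM
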